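import Mathlib

namespace Pool.Agent.Results.MP_643687_an.OddOrderLine

open MeasureTheory Filter Topology Laplacian Convolution
open scoped ContDiff

/-- The operator `-Δ` on functions on `ℝⁿ`. -/
noncomputable def negLap {n : ℕ} (φ : EuclideanSpace ℝ (Fin n) → ℝ) :
    EuclideanSpace ℝ (Fin n) → ℝ := fun x => -(Δ φ x)

/-- `u` is a distributional solution of `(-Δ)^m u = |x|^σ u^p` in `ℝⁿ`. -/
def IsDistributionalSolution (m n : ℕ) (p σ : ℝ) (u : EuclideanSpace ℝ (Fin n) → ℝ) : Prop :=
  (∀ᵐ x, 0 ≤ u x) ∧ (¬ ∀ᵐ x, u x = 0) ∧ LocallyIntegrable u ∧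
  LocallyIntegrable (fun x => ‖x‖ ^ σ * u x ^ p) ∧
  ∀ φ : EuclideanSpace ℝ (Fin n) → ℝ, ContDiff ℝ ∞ φ → HasCompactSupport φ →
    ∫ x, u x * (negLap^[m] φ) x = ∫ x, ‖x‖ ^ σ * u x ^ p * φ x

/-- The assertion of Q1. -/
def AlwaysSolvable : Prop :=
  ∀ (m n : ℕ) (p σ : ℝ), 2 ≤ m → 1 ≤ n → 1 < p → σ < -2 * (m : ℝ) →
    0 < (n : ℝ) - 2 * m - (2 * m + σ) / (p - 1) →
    ∃ u : EuclideanSpace ℝ (Fin n) → ℝ, IsDistributionalSolution m n p σ u

section oned

/-- If the `k`-th derivative is eventually at most a negative constant, the function is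
somewhere negative. -/
lemma exists_neg : ∀ (k : ℕ) (W : ℝ → ℝ), ContDiff ℝ ∞ W →
    (∃ a δ : ℝ, 0 < δ ∧ ∀ x, a ≤ x → iteratedDeriv k W x ≤ -δ) → ∃ x, W x < 0 := by
  intro k
  induction k with
  | zero =>
    intro W _ h
    obtain ⟨a, δ, hδ, h⟩ := h
    refine ⟨a, ?_⟩
    have := h a le_rfl
    rw [iteratedDeriv_zero] at this
    linarith
  | succ k ih =>
    intro W hW h
    obtain ⟨a, δ, hδ, h⟩ := h
    apply ih W hW
    have hd : Differentiable ℝ (iteratedDeriv k W) :=
      hW.differentiable_iteratedDeriv k (by exact_mod_cast ENat.natCast_lt_top k)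
    have hb : ∀ x, a ≤ x → iteratedDeriv k W x ≤ iteratedDeriv k W a - δ * (x - a) := by
      intro x hx
      have := (convex_Ici a).image_sub_le_mul_sub_of_deriv_le
        (f := iteratedDeriv k W) hd.continuous.continuousOn hd.differentiableOn
        (C := -δ) (fun y hy => by
          rw [interior_Ici] at hy
          have := h y hy.le
          rwa [iteratedDeriv_succ] at this) a (by simp) x hx hx
      linarith
    refine ⟨max a (a + (iteratedDeriv k W a + 1) / δ), 1, one_pos, fun x hx => ?_⟩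
    have h1 : a ≤ x := (le_max_left _ _).trans hx
    have h2 : a + (iteratedDeriv k W a + 1) / δ ≤ x := (le_max_right _ _).trans hx
    have h3 : iteratedDeriv k W a + 1 ≤ δ * (x - a) := by
      have : (iteratedDeriv k W a + 1) / δ ≤ x - a := by linarith
      rwa [div_le_iff₀ hδ, mul_comm] at this
    have := hb x h1
    linarith

/-- A nonnegative smooth function on the line whose derivative of even positive order `2 m` is
nonpositive has vanishing derivative of order `2 m`. -/
lemma deriv_zero {m : ℕ} (hm : 1 ≤ m) {U : ℝ → ℝ} (hU : ContDiff ℝ ∞ U) (h0 : ∀ x, 0 ≤ U x)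
    (hd : ∀ x, iteratedDeriv (2 * m) U x ≤ 0) (x : ℝ) : iteratedDeriv (2 * m) U x = 0 := by
  obtain ⟨j, hj⟩ : ∃ j, 2 * m = j + 1 ∧ Odd j := ⟨2 * m - 1, by omega, by
    rw [Nat.odd_iff]; omega⟩
  obtain ⟨hj, hodd⟩ := hj
  rw [hj] at hd ⊢
  have hdj : Differentiable ℝ (iteratedDeriv j U) :=
    hU.differentiable_iteratedDeriv j (by exact_mod_cast ENat.natCast_lt_top j)
  have hanti : Antitone (iteratedDeriv j U) := by
    apply antitone_of_deriv_nonpos hdj
    intro y
    have := hd y
    rwa [iteratedDeriv_succ] at this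
  have hge : ∀ a, 0 ≤ iteratedDeriv j U a := by
    intro a
    by_contra hneg
    rw [not_le] at hneg
    obtain ⟨y, hy⟩ := exists_neg j U hU ⟨a, -iteratedDeriv j U a, by linarith, fun y hy => by
      have := hanti hy
      linarith⟩
    exact absurd (h0 y) (by linarith)
  have hle : ∀ a, iteratedDeriv j U a ≤ 0 := by
    intro a
    by_contra hpos
    rw [not_le] at hpos
    have hW : ContDiff ℝ ∞ (fun x => U (-x)) := hU.comp contDiff_neg
    obtain ⟨y, hy⟩ := exists_neg j (fun x => U (-x)) hW ⟨-a, iteratedDeriv j U a, hpos,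
      fun y hy => by
        rw [iteratedDeriv_comp_neg, hodd.neg_one_pow]
        have := hanti (show -y ≤ a by linarith)
        simp only [smul_eq_mul]
        linarith⟩
    exact absurd (h0 (-y)) (by linarith)
  have hz : iteratedDeriv j U = fun _ => 0 := by
    funext a
    exact le_antisymm (hle a) (hge a)
  rw [iteratedDeriv_succ, hz]
  simp

lemma smooth_iter {η : ℝ → ℝ} (hη : ContDiff ℝ ∞ η) (k : ℕ) :
    ContDiff ℝ ∞ (iteratedDeriv k η) := by
  rw [iteratedDeriv_eq_iterate]
  exact ContDiff.iterate_deriv k hη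

lemma compact_iter {η : ℝ → ℝ} (hη : HasCompactSupport η) (k : ℕ) :
    HasCompactSupport (iteratedDeriv k η) := by
  induction k with
  | zero => simpa using hη
  | succ k ih => rw [iteratedDeriv_succ]; exact ih.deriv

lemma conv_iter {v η : ℝ → ℝ} (hv : LocallyIntegrable v) (hη : ContDiff ℝ ∞ η)
    (hc : HasCompactSupport η) (k : ℕ) :
    iteratedDeriv k (v ⋆[ContinuousLinearMap.mul ℝ ℝ] η) =
      (v ⋆[ContinuousLinearMap.mul ℝ ℝ] iteratedDeriv k η) := by
  induction k with
  | zero => simp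
  | succ k ih =>
    rw [iteratedDeriv_succ, ih]
    funext x
    rw [((compact_iter hc k).hasDerivAt_convolution_right (ContinuousLinearMap.mul ℝ ℝ) hv
      ((smooth_iter hη k).of_le (by simp)) x).deriv, iteratedDeriv_succ]

lemma iter_sub {η : ℝ → ℝ} (k : ℕ) (x y : ℝ) :
    iteratedDeriv (2 * k) (fun t => η (x - t)) y = iteratedDeriv (2 * k) η (x - y) := by
  have := congrFun (iteratedDeriv_comp_const_sub (2 * k) η x) y
  rw [this]
  simp

/-- The one-dimensional statement. -/
lemma oned {m : ℕ} (hm : Odd m) {v f : ℝ → ℝ} (hv : LocallyIntegrable v)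
    (hf : LocallyIntegrable f) (hv0 : ∀ᵐ x, 0 ≤ v x) (hf0 : ∀ᵐ x, 0 ≤ f x)
    (h : ∀ ψ : ℝ → ℝ, ContDiff ℝ ∞ ψ → HasCompactSupport ψ →
      ∫ x, v x * ((-1) ^ m * iteratedDeriv (2 * m) ψ x) = ∫ x, f x * ψ x) :
    ∀ᵐ x, f x = 0 := by
  have key : ∀ η : ℝ → ℝ, ContDiff ℝ ∞ η → HasCompactSupport η → (∀ x, 0 ≤ η x) →
      ∀ x, ∫ y, f y * η (x - y) = 0 := by
    intro η hη hc hη0 x
    set U := (v ⋆[ContinuousLinearMap.mul ℝ ℝ] η) with hUdef
    have hU : ContDiff ℝ ∞ U := hc.contDiff_convolution_right _ hv hη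
    have hU0 : ∀ x, 0 ≤ U x := by
      intro x
      rw [hUdef, convolution_def]
      apply integral_nonneg_of_ae
      filter_upwards [hv0] with t ht
      exact mul_nonneg ht (hη0 _)
    have hUd : ∀ x, iteratedDeriv (2 * m) U x = -∫ y, f y * η (x - y) := by
      intro x
      have hψ : ContDiff ℝ ∞ (fun t => η (x - t)) := hη.comp (contDiff_const.sub contDiff_id)
      have hψc : HasCompactSupport (fun t => η (x - t)) := by
        have := hc.comp_homeomorph (Homeomorph.subLeft x)
        exact this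
      have h1 := h _ hψ hψc
      rw [hUdef, conv_iter hv hη hc, convolution_def, ← h1, hm.neg_one_pow, ← integral_neg]
      congr 1
      funext y
      rw [iter_sub]
      simp
    have h2 := deriv_zero (m := m) hm.pos hU hU0 (fun y => by
      rw [hUd y, neg_nonpos]
      apply integral_nonneg_of_ae
      filter_upwards [hf0] with t ht
      exact mul_nonneg ht (hη0 _)) x
    rw [hUd x] at h2
    linarith
  have key2 : ∀ η : ℝ → ℝ, ContDiff ℝ ∞ η → HasCompactSupport η → (∀ x, 0 ≤ η x) →
      ∫ y, f y * η y = 0 := by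
    intro η hη hc hη0
    have hη' : ContDiff ℝ ∞ (fun t => η (-t)) := hη.comp contDiff_neg
    have hc' : HasCompactSupport (fun t => η (-t)) := hc.comp_homeomorph (Homeomorph.neg ℝ)
    have := key (fun t => η (-t)) hη' hc' (fun x => hη0 _) 0
    simpa using this
  apply ae_eq_zero_of_integral_contDiff_smul_eq_zero hf
  intro g hg hgc
  -- a smooth majorant of `|g|`
  obtain ⟨C, hC⟩ := hg.continuous.bounded_above_of_compact_support hgc
  obtain ⟨R, hR⟩ := hgc.isCompact.isBounded.subset_closedBall (0 : ℝ)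
  have hR1 : 0 < |R| + 1 := by positivity
  let b : ContDiffBump (0 : ℝ) := ⟨|R| + 1, |R| + 2, hR1, by linarith⟩
  have hχ : ContDiff ℝ ∞ (fun x => |C| * b x) := contDiff_const.mul b.contDiff
  have hχc : HasCompactSupport (fun x => |C| * b x) := b.hasCompactSupport.mul_left
  have hmaj : ∀ x, |g x| ≤ |C| * b x := by
    intro x
    by_cases hx : x ∈ tsupport g
    · have h1 := hR hx
      rw [b.one_of_mem_closedBall (Metric.closedBall_subset_closedBall
        ((le_abs_self R).trans (by linarith)) h1), mul_one]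
      exact (hC x).trans (le_abs_self C)
    · rw [image_eq_zero_of_notMem_tsupport hx, abs_zero]
      exact mul_nonneg (abs_nonneg _) b.nonneg
  have e1 := key2 (fun x => |C| * b x) hχ hχc (fun x => (abs_nonneg _).trans (hmaj x))
  have e2 := key2 (fun x => g x + |C| * b x) (hg.add hχ) (hgc.add hχc)
    (fun x => by linarith [hmaj x, neg_abs_le (g x)])
  have i1 : Integrable (fun x => f x * (|C| * b x)) := by
    have := hf.integrable_smul_left_of_hasCompactSupport hχ.continuous hχc
    refine this.congr (Eventually.of_forall fun x => ?_)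
    simp [mul_comm]
  have i2 : Integrable (fun x => f x * g x) := by
    have := hf.integrable_smul_left_of_hasCompactSupport hg.continuous hgc
    refine this.congr (Eventually.of_forall fun x => ?_)
    simp [mul_comm]
  have e3 : ∫ x, f x * (g x + |C| * b x) = (∫ x, f x * g x) + ∫ x, f x * (|C| * b x) := by
    rw [← integral_add i2 i1]
    congr 1
    funext x
    ring
  rw [e3, e1, add_zero] at e2
  rw [← e2]
  congr 1
  funext x
  simp [mul_comm]

end oned

section transfer

/-- The isometry between the line and `EuclideanSpace ℝ (Fin 1)`. -/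
noncomputable def L : ℝ ≃ₗᵢ[ℝ] EuclideanSpace ℝ (Fin 1) :=
  (OrthonormalBasis.singleton (Fin 1) ℝ).repr

lemma measurePreserving_L : MeasurePreserving L volume volume :=
  (OrthonormalBasis.singleton (Fin 1) ℝ).measurePreserving_repr

lemma laplacian_comp {ψ : ℝ → ℝ} (hψ : ContDiff ℝ ∞ ψ) :
    negLap (ψ ∘ L.symm) = (fun t => -iteratedDeriv 2 ψ t) ∘ L.symm := by
  funext x
  have h1 := congrFun (InnerProductSpace.laplacian_eq_iteratedFDeriv_orthonormalBasis
    (ψ ∘ L.symm) ((OrthonormalBasis.singleton (Fin 1) ℝ).map L)) x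
  have h2 := ContinuousLinearMap.iteratedFDeriv_comp_right
    (L.symm.toContinuousLinearEquiv : EuclideanSpace ℝ (Fin 1) →L[ℝ] ℝ) (hψ.of_le (m := 2)
      (WithTop.coe_le_coe.mpr le_top)) x (i := 2) le_rfl
  unfold negLap
  rw [h1]
  simp only [Function.comp_apply, neg_inj]
  have h3 : iteratedFDeriv ℝ 2 (ψ ∘ L.symm) x = iteratedFDeriv ℝ 2
    (ψ ∘ (L.symm.toContinuousLinearEquiv : EuclideanSpace ℝ (Fin 1) →L[ℝ] ℝ)) x := rfl
  rw [h3, h2]
  simp only [Finset.univ_unique, Finset.sum_singleton,
    ContinuousMultilinearMap.compContinuousLinearMap_apply, iteratedDeriv]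
  congr 1
  funext i
  fin_cases i <;> simp

lemma iter_negLap (m : ℕ) : ∀ {ψ : ℝ → ℝ}, ContDiff ℝ ∞ ψ →
    negLap^[m] (ψ ∘ L.symm) = (fun t => (-1) ^ m * iteratedDeriv (2 * m) ψ t) ∘ L.symm := by
  induction m with
  | zero => intro ψ hψ; simp
  | succ m ih =>
    intro ψ hψ
    rw [Function.iterate_succ', Function.comp_apply, ih hψ]
    have hs : ContDiff ℝ ∞ (fun t => (-1) ^ m * iteratedDeriv (2 * m) ψ t) :=
      contDiff_const.mul (smooth_iter hψ _)
    rw [laplacian_comp hs]
    congr 1
    funext t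
    have e : iteratedDeriv 2 (fun t => (-1 : ℝ) ^ m * iteratedDeriv (2 * m) ψ t) t =
        (-1) ^ m * iteratedDeriv (2 * (m + 1)) ψ t := by
      rw [iteratedDeriv_const_mul_field]
      congr 1
      rw [iteratedDeriv_eq_iterate, iteratedDeriv_eq_iterate, iteratedDeriv_eq_iterate,
        ← Function.iterate_add_apply, show 2 + 2 * m = 2 * (m + 1) by ring]
    rw [e]
    ring

end transfer

/-- For odd `m` the equation has no distributional solution on the line, whatever `p > 1` and `σ`
are.  In particular Q1 has a negative answer (e.g. `m = 3`, `n = 1`, `p = 2`, `σ = -12`). -/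
theorem result :
    (∀ (m : ℕ) (p σ : ℝ), Odd m → 1 < p →
      ¬ ∃ u : EuclideanSpace ℝ (Fin 1) → ℝ, IsDistributionalSolution m 1 p σ u) ∧
    ¬ AlwaysSolvable := by
  have main : ∀ (m : ℕ) (p σ : ℝ), Odd m → 1 < p →
      ¬ ∃ u : EuclideanSpace ℝ (Fin 1) → ℝ, IsDistributionalSolution m 1 p σ u := by
    rintro m p σ hm hp ⟨u, hu0, hune, hu, hf, h⟩
    apply hune
    have hmp := measurePreserving_L
    have hLe : MeasurableEmbedding L := L.toHomeomorph.measurableEmbedding
    have hvl : LocallyIntegrable (u ∘ L) := by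
      have e : Measure.map L.toHomeomorph volume = volume := hmp.map_eq
      exact (locallyIntegrable_map_homeomorph L.toHomeomorph).mp (by rw [e]; exact hu)
    have hfl : LocallyIntegrable ((fun x => ‖x‖ ^ σ * u x ^ p) ∘ L) := by
      have e : Measure.map L.toHomeomorph volume = volume := hmp.map_eq
      exact (locallyIntegrable_map_homeomorph L.toHomeomorph).mp (by rw [e]; exact hf)
    have hv0 : ∀ᵐ t, 0 ≤ (u ∘ L) t := hmp.quasiMeasurePreserving.ae hu0
    have hf0 : ∀ᵐ t, 0 ≤ ((fun x => ‖x‖ ^ σ * u x ^ p) ∘ L) t := by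
      filter_upwards [hv0] with t ht
      exact mul_nonneg (Real.rpow_nonneg (norm_nonneg _) _) (Real.rpow_nonneg ht _)
    have hz := oned hm hvl hfl hv0 hf0 (by
      intro ψ hψ hψc
      have hφ : ContDiff ℝ ∞ (ψ ∘ L.symm) := hψ.comp L.symm.contDiff
      have hφc : HasCompactSupport (ψ ∘ L.symm) := hψc.comp_homeomorph L.symm.toHomeomorph
      have h1 := h _ hφ hφc
      rw [iter_negLap m hψ, ← hmp.integral_comp hLe, ← hmp.integral_comp hLe] at h1
      simpa using h1)
    have hz' : ∀ᵐ x : EuclideanSpace ℝ (Fin 1), ‖x‖ ^ σ * u x ^ p = 0 := by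
      have hmp' : MeasurePreserving L.symm volume volume :=
        (OrthonormalBasis.singleton (Fin 1) ℝ).measurePreserving_repr_symm
      have := hmp'.quasiMeasurePreserving.ae hz
      simpa using this
    have hne : ∀ᵐ x : EuclideanSpace ℝ (Fin 1), x ≠ 0 := by
      have : (volume : Measure (EuclideanSpace ℝ (Fin 1))) {0} = 0 := measure_singleton 0
      exact measure_mono_null (by intro x; simp) this
    filter_upwards [hz', hne, hu0] with x h1 h2 h3
    rcases mul_eq_zero.mp h1 with h4 | h4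
    · exact absurd h4 (Real.rpow_pos_of_pos (norm_pos_iff.mpr h2) _).ne'
    · exact (Real.rpow_eq_zero h3 (by linarith)).mp h4
  refine ⟨main, ?_⟩
  intro hA
  exact main 3 2 (-12) (by decide) (by norm_num)
    (hA 3 1 2 (-12) (by norm_num) le_rfl (by norm_num) (by norm_num) (by norm_num))

end Pool.Agent.Results.MP_643687_an.OddOrderLine
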